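import Mathlib
import Pool.Agent.Lib_helper53.PFMain

/-!
# A Banach space with the primary factorisation property which is isomorphic to its fourth power but
not to its square
-/

set_option autoImplicit false

namespace Pool.Agent.Lib_helper53.PF

variable {E : Type} [NormedAddCommGroup E] [InnerProductSpace ℝ E]

/-- From an algebra with four isometries of Cuntz type to the Banach space. -/
theorem four_of_algebra [CompleteSpace E] [TopologicalSpace.SeparableSpace E]
    (A : Subalgebra ℝ (E →L[ℝ] E)) [TopologicalSpace.SeparableSpace A]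
    (hA : IsClosed (A : Set (E →L[ℝ] E)))
    (h1 : ∀ a : A, a ≠ 0 → ∃ b c : A, b * a * c = 1)
    (s c : Fin 4 → A) (hcs : ∀ i, c i * s i = 1) (hcs' : ∀ i j, i ≠ j → c i * s j = 0)
    (hsc : s 0 * c 0 + s 1 * c 1 + (s 2 * c 2 + s 3 * c 3) = 1)
    (hp : ¬ ∃ a b : A, b * a = 1 ∧ a * b = s 0 * c 0 + s 1 * c 1) :
    ∃ (X : Type) (_ : NormedAddCommGroup X) (_ : NormedSpace ℝ X) (_ : CompleteSpace X),
      (∀ T : X →L[ℝ] X, (∃ U V : X →L[ℝ] X, U * T * V = 1) ∨
        (∃ U V : X →L[ℝ] X, U * ((1 : X →L[ℝ] X) - T) * V = 1)) ∧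
      Nonempty (X ≃L[ℝ] (X × X) × (X × X)) ∧ IsEmpty (X ≃L[ℝ] X × X) := by
  obtain ⟨G, hO, hG⟩ := exists_system (E := E) (A := A) hA
  have hR : Gen.Rigid G A := ⟨hO, hG⟩
  have hadd : ∀ a b : A, Gen.actS (G := G) (a + b) = Gen.actS a + Gen.actS b := by
    intro a b
    have e1 := Gen.actS_sub (G := G) (a + b) b
    rw [add_sub_cancel_right] at e1
    rw [e1, sub_add_cancel]
  have h0 : Gen.actS (G := G) (0 : A) = 0 := by
    have := Gen.actS_sub (G := G) (0 : A) 0
    rw [sub_self, sub_self] at this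
    exact this
  set X := Gen.Sp G A with hX
  set σ : Fin 4 → (X →L[ℝ] X) := fun i => Gen.actS (s i) with hσ
  set γ : Fin 4 → (X →L[ℝ] X) := fun i => Gen.actS (c i) with hγ
  have k1 : ∀ i x, γ i (σ i x) = x := by
    intro i x
    have : γ i * σ i = 1 := by
      rw [hγ, hσ]
      simp only
      rw [← Gen.actS_mul, hcs i, Gen.actS_one]
    exact congrFun (congrArg DFunLike.coe this) x
  have k2 : ∀ i j, i ≠ j → ∀ x, γ i (σ j x) = 0 := by
    intro i j hij x
    have : γ i * σ j = 0 := by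
      rw [hγ, hσ]
      simp only
      rw [← Gen.actS_mul, hcs' i j hij, h0]
    exact congrFun (congrArg DFunLike.coe this) x
  have k3 : ∀ x, σ 0 (γ 0 x) + σ 1 (γ 1 x) + (σ 2 (γ 2 x) + σ 3 (γ 3 x)) = x := by
    intro x
    have : σ 0 * γ 0 + σ 1 * γ 1 + (σ 2 * γ 2 + σ 3 * γ 3) = 1 := by
      rw [hγ, hσ]
      simp only
      rw [← Gen.actS_mul, ← Gen.actS_mul, ← Gen.actS_mul, ← Gen.actS_mul, ← hadd, ← hadd, ← hadd,
        hsc, Gen.actS_one]
    exact congrFun (congrArg DFunLike.coe this) x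
  refine ⟨X, inferInstance, inferInstance, Gen.completeSpace_Sp hA, fun T => hR.pfp hA h1 T,
    ⟨?_⟩, ⟨fun e => ?_⟩⟩
  · refine ContinuousLinearEquiv.equivOfInverse
      (((γ 0).prod (γ 1)).prod ((γ 2).prod (γ 3)))
      (((σ 0).coprod (σ 1)).coprod ((σ 2).coprod (σ 3))) ?_ ?_
    · intro x
      simpa using k3 x
    · rintro ⟨⟨x0, x1⟩, x2, x3⟩
      simp only [ContinuousLinearMap.coprod_apply, ContinuousLinearMap.prod_apply, map_add, k1,
        k2 0 1 (by decide), k2 0 2 (by decide), k2 0 3 (by decide), k2 1 0 (by decide),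
        k2 1 2 (by decide), k2 1 3 (by decide), k2 2 0 (by decide), k2 2 1 (by decide),
        k2 2 3 (by decide), k2 3 0 (by decide), k2 3 1 (by decide), k2 3 2 (by decide),
        Prod.mk_add_mk, add_zero, zero_add]
  · apply hp
    refine hR.descend (u := ((σ 0).coprod (σ 1)).comp (e : X →L[ℝ] X × X))
      (w := (e.symm : X × X →L[ℝ] X).comp ((γ 0).prod (γ 1))) ?_ ?_
    · refine ContinuousLinearMap.ext fun x => ?_
      change e.symm (γ 0 (σ 0 (e x).1 + σ 1 (e x).2), γ 1 (σ 0 (e x).1 + σ 1 (e x).2)) = x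
      rw [map_add, map_add, k1, k1, k2 0 1 (by decide), k2 1 0 (by decide), add_zero, zero_add]
      exact e.symm_apply_apply x
    · rw [hadd, Gen.actS_mul, Gen.actS_mul]
      refine ContinuousLinearMap.ext fun x => ?_
      change σ 0 (e (e.symm (γ 0 x, γ 1 x))).1 + σ 1 (e (e.symm (γ 0 x, γ 1 x))).2
        = σ 0 (γ 0 x) + σ 1 (γ 1 x)
      rw [e.apply_symm_apply]

/-- There is a real Banach space with the primary factorisation property which is isomorphic to its
fourth power but not to its square. -/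
theorem exists_pfp_four :
    ∃ (X : Type) (_ : NormedAddCommGroup X) (_ : NormedSpace ℝ X) (_ : CompleteSpace X),
      (∀ T : X →L[ℝ] X, (∃ U V : X →L[ℝ] X, U * T * V = 1) ∨
        (∃ U V : X →L[ℝ] X, U * ((1 : X →L[ℝ] X) - T) * V = 1)) ∧
      Nonempty (X ≃L[ℝ] (X × X) × (X × X)) ∧ IsEmpty (X ≃L[ℝ] X × X) := by
  refine four_of_algebra (E := HE) CA isClosed_CA CA_factor (fun i => ⟨S [i], S_mem _⟩)
    (fun i => ⟨C [i], C_mem _⟩) (fun i => Subtype.ext (CS_same i))
    (fun i j h => Subtype.ext (CS_ne h)) (Subtype.ext sum_SC) ?_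
  rintro ⟨a, b, hba, hab⟩
  exact no_equiv 0 1 (by decide) a b a.2 b.2 (congrArg Subtype.val hba) (congrArg Subtype.val hab)

end Pool.Agent.Lib_helper53.PF
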